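import Pool.Agent.MP_2a5a28_nt.Mg.H37_Field

set_option autoImplicit false

namespace Pool.Agent.Results.MP_2a5a28_nt.LowerBound

open Pool.Agent.MP_2a5a28_nt.H37

theorem result : ∀ T : ℝ, ∃ a b c : ℤ,
    (a : O) + (b : O) + (c : O) = 0 ∧ Ideal.span ({(a : O), (b : O), (c : O)} : Set O) = ⊤ ∧
    (a : O) * (b : O) * (c : O) ≠ 0 ∧ T < ht a 0 b 0 c 0 ∧
    rad ((a : O) * (b : O) * (c : O)) * Real.exp (9.65 * √(Real.log (ht a 0 b 0 c 0)) /
      Real.log (Real.log (ht a 0 b 0 c 0))) < ht a 0 b 0 c 0 :=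
  abc_field

end Pool.Agent.Results.MP_2a5a28_nt.LowerBound
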