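import Pool.Agent.MP_2a5a28_nt.H9.Final

set_option autoImplicit false

namespace Pool.Agent.Results.MP_2a5a28_nt.RadicalCount

open Pool.Agent.MP_2a5a28_nt.H37

theorem result : ∀ ε : ℝ, 0 < ε → ∃ C : ℝ, ∀ Y : ℝ, 1 ≤ Y → ∀ S : Finset (O × O × O),
    (∀ a b c : O, (a, b, c) ∈ S → ∃ x₁ y₁ x₂ y₂ x₃ y₃ : ℤ,
      (a : ℝ) = (x₁ : ℝ) + (y₁ : ℝ) * Real.goldenRatio ∧
      (b : ℝ) = (x₂ : ℝ) + (y₂ : ℝ) * Real.goldenRatio ∧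
      (c : ℝ) = (x₃ : ℝ) + (y₃ : ℝ) * Real.goldenRatio ∧
      a + b + c = 0 ∧ Ideal.span ({a, b, c} : Set O) = ⊤ ∧ a * b * c ≠ 0 ∧
      rad (a * b * c) ≤ Y ∧ rad (a * b * c) ≤ ht x₁ y₁ x₂ y₂ x₃ y₃) →
    (∀ a b c : O, ∀ u : Oˣ, (a, b, c) ∈ S → ((u : O) * a, (u : O) * b, (u : O) * c) ∈ S → u = 1) →
    (S.card : ℝ) ≤ C * Y ^ (5 / 9 + ε) :=
  Pool.Agent.MP_2a5a28_nt.H9.count_O

end Pool.Agent.Results.MP_2a5a28_nt.RadicalCount
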