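import Pool.Agent.MP_2a5a28_nt.H1D.Top

set_option autoImplicit false

namespace Pool.Agent.Results.MP_2a5a28_nt.Szpiro

theorem result : ∀ ε : ℝ, 0 < ε → ∃ C : ℝ, ∀ x y : ℤ, x ^ 3 ≠ y ^ 2 →
    Real.log (max (|(x : ℝ)| ^ 3) ((y : ℝ) ^ 2)) ≤ Real.log (Int.gcd (x ^ 3) (y ^ 2)) +
      C * (√(∏ p ∈ (x ^ 3 - y ^ 2).natAbs.primeFactors.filter
            (fun p : ℕ => Odd ((x ^ 3 - y ^ 2).natAbs.factorization p)), (p : ℝ)) *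
          ∏ p ∈ (Int.gcd x y).primeFactors.filter
            (fun p : ℕ => Even ((x ^ 3 - y ^ 2).natAbs.factorization p)), (p : ℝ)) *
        (∏ p ∈ (x ^ 3 - y ^ 2).natAbs.primeFactors, (p : ℝ)) ^ ε :=
  Pool.Agent.MP_2a5a28_nt.H1D.top

end Pool.Agent.Results.MP_2a5a28_nt.Szpiro
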