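import Pool.Agent.MP_2a5a28_nt.H63.Main

set_option autoImplicit false

namespace Pool.Agent.Results.MP_2a5a28_nt.UpperBound

open Pool.Agent.MP_2a5a28_nt.H37

theorem result : ∀ ε : ℝ, 0 < ε → ∃ C : ℝ, ∀ a b c : O, ∀ x₁ y₁ x₂ y₂ x₃ y₃ : ℤ,
    (a : ℝ) = (x₁ : ℝ) + (y₁ : ℝ) * Real.goldenRatio →
    (b : ℝ) = (x₂ : ℝ) + (y₂ : ℝ) * Real.goldenRatio →
    (c : ℝ) = (x₃ : ℝ) + (y₃ : ℝ) * Real.goldenRatio →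
    a + b + c = 0 → Ideal.span ({a, b, c} : Set O) = ⊤ → a * b * c ≠ 0 →
    Real.log (ht x₁ y₁ x₂ y₂ x₃ y₃) ≤ C * rad (a * b * c) ^ ε :=
  Pool.Agent.MP_2a5a28_nt.H63.golden

end Pool.Agent.Results.MP_2a5a28_nt.UpperBound
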